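import Mathlib

set_option autoImplicit false

namespace Pool.Agent.Results.MP_32269d_co.Cex

def IsStrategy (S : ℕ → List ℝ) : Prop :=
  S 1 = [1] ∧ ∀ i ≥ 1, ∃ (l : List ℝ) (a b : ℝ) (r : List ℝ),
    0 < a ∧ 0 < b ∧ S i = l ++ (a + b) :: r ∧ S (i + 1) = l ++ a :: b :: r

noncomputable def discN (S : ℕ → List ℝ) (n : ℕ) : ℝ :=
  sSup {x | ∃ t, 1 ≤ t ∧ t ≤ n ∧ ∃ a ∈ S t, ∃ b ∈ S t, x = a / b}

private noncomputable def X (h : ℝ) (k : ℕ) : ℝ :=
  ((7 - 2 * k * h) ^ 3 - (7 - 2 * (k + 1) * h) ^ 3) / 218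

private noncomputable def L (m i : ℕ) : List ℝ :=
  (List.range (2 * i)).map (X (1 / m / 2)) ++ (List.range' i (m - i)).map (X (1 / m))

private theorem bd (h : ℝ) (k : ℕ) (h0 : 0 < h) (h1 : (k + 1) * h ≤ 1) :
    150 * h ≤ 218 * X h k ∧ 218 * X h k ≤ 294 * h := by
  have k0 : 0 ≤ k * h := by positivity
  have e : 218 * X h k = 2 * h * ((7 - 2 * k * h) ^ 2 + (7 - 2 * k * h) * (7 - 2 * (k + 1) * h) +
      (7 - 2 * (k + 1) * h) ^ 2) := by unfold X; ring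
  rw [e]
  set y := 7 - 2 * k * h
  set z := 7 - 2 * (k + 1) * h
  have : 5 ≤ z := by simp only [z]; linarith
  have : y ≤ 7 := by simp only [y]; linarith
  have : z ≤ y := by simp only [y, z]; linarith
  have a : 75 ≤ y ^ 2 + y * z + z ^ 2 := by nlinarith
  have b : y ^ 2 + y * z + z ^ 2 ≤ 147 := by nlinarith
  constructor <;> nlinarith

private theorem key (h : ℝ) (j k : ℕ) (h0 : 0 < h) (h1 : (j + 1) * h ≤ 1) (hk : k + 1 ≤ 2 * j) :
    X h j ≤ (2 - 4 / 5 * h) * X (h / 2) k := by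
  have c : (k : ℝ) + 1 ≤ 2 * j := by exact_mod_cast hk
  have k0 : (0 : ℝ) ≤ k := Nat.cast_nonneg k
  have j1 : (1 : ℝ) ≤ j := Nat.one_le_cast.2 (by omega)
  obtain ⟨y, hy⟩ : ∃ y, y = 7 - 2 * j * h := ⟨_, rfl⟩
  obtain ⟨z, hz⟩ : ∃ z, z = 7 - (k + 1) * h := ⟨_, rfl⟩
  have e1 : X h j = h * (6 * y ^ 2 - 12 * y * h + 8 * h ^ 2) / 218 := by unfold X; rw [hy]; ring
  have e2 : X (h / 2) k = h * (3 * z ^ 2 + 3 * z * h + h ^ 2) / 218 := by unfold X; rw [hz]; ring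
  have a1 : 5 + 2 * h ≤ y := by linarith
  have a2 : y ≤ 7 - 2 * h := by nlinarith
  have a3 : y ≤ z := by nlinarith
  have a4 : 3 * y ^ 2 + 3 * y * h + h ^ 2 ≤ 3 * z ^ 2 + 3 * z * h + h ^ 2 := by nlinarith
  have a5 : 0 ≤ 18 * y - 12 / 5 * y ^ 2 - h * (6 + 12 / 5 * y) - 4 / 5 * h ^ 2 := by nlinarith
  have a6 : 6 * y ^ 2 - 12 * y * h + 8 * h ^ 2 ≤ (2 - 4 / 5 * h) * (3 * z ^ 2 + 3 * z * h + h ^ 2) :=
    le_trans (by nlinarith) (mul_le_mul_of_nonneg_left a4 (by linarith))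
  rw [e1, e2]
  nlinarith

private theorem mem (m i : ℕ) (hi : i < m) (a : ℝ) (ha : a ∈ L m i) :
    (∃ k, k + 1 ≤ 2 * i ∧ a = X (1 / m / 2) k ∧ ((k : ℝ) + 1) * (1 / m / 2) ≤ 1) ∨
      ∃ j, i ≤ j ∧ a = X (1 / m) j ∧ ((j : ℝ) + 1) * (1 / m) ≤ 1 := by
  have m0 : (0 : ℝ) < m := Nat.cast_pos.2 (by omega)
  simp only [L, List.mem_append, List.mem_map, List.mem_range, List.mem_range'_1] at ha
  rcases ha with ⟨k, h, rfl⟩ | ⟨j, h, rfl⟩
  · have : (k : ℝ) + 1 ≤ 2 * m := by exact_mod_cast (by omega : k + 1 ≤ 2 * m)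
    exact .inl ⟨k, h, rfl, by field_simp; linarith⟩
  · have : (j : ℝ) + 1 ≤ m := by exact_mod_cast (by omega : j + 1 ≤ m)
    exact .inr ⟨j, h.1, rfl, by field_simp; linarith⟩

private theorem rat (m i : ℕ) (hi : i < m) (ρ : ℝ) (h1 : 49 / 25 ≤ ρ) (h2 : 2 - 4 / 5 * (1 / m) ≤ ρ)
    (a : ℝ) (ha : a ∈ L m i) (b : ℝ) (hb : b ∈ L m i) : a / b ≤ ρ := by
  have m0 : (0 : ℝ) < 1 / m := one_div_pos.2 (Nat.cast_pos.2 (by omega))
  have A := mem m i hi a ha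
  have B := mem m i hi b hb
  generalize (1 : ℝ) / m = h at *
  rcases A with ⟨k, k1, rfl, k2⟩ | ⟨j, j1, rfl, j2⟩ <;>
    rcases B with ⟨k', l1, rfl, l2⟩ | ⟨j', l1, rfl, l2⟩
  · have := bd _ _ (by linarith) k2
    have := bd _ _ (by linarith) l2
    rw [div_le_iff₀ (by linarith)]
    nlinarith
  · have := bd _ _ (by linarith) k2
    have := bd _ _ m0 l2
    rw [div_le_iff₀ (by linarith)]
    nlinarith
  · have := bd _ _ (by linarith) l2
    have := key h j k' m0 j2 (by omega)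
    rw [div_le_iff₀ (by linarith)]
    nlinarith
  · have := bd _ _ m0 j2
    have := bd _ _ m0 l2
    rw [div_le_iff₀ (by linarith)]
    nlinarith

private theorem step (m i : ℕ) (hi : i < m) : ∃ (l : List ℝ) (a b : ℝ) (r : List ℝ),
    0 < a ∧ 0 < b ∧ L m i = l ++ (a + b) :: r ∧ L m (i + 1) = l ++ a :: b :: r := by
  have m0 : (0 : ℝ) < m := Nat.cast_pos.2 (by omega)
  have c : (i : ℝ) + 1 ≤ m := by exact_mod_cast hi
  have p : (0 : ℝ) < 1 / m / 2 := by positivity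
  have h1 := (bd _ (2 * i) p (by push_cast; field_simp; linarith)).1
  have h2 := (bd _ (2 * i + 1) p (by push_cast; field_simp; linarith)).1
  refine ⟨(List.range (2 * i)).map (X (1 / m / 2)), X (1 / m / 2) (2 * i), X (1 / m / 2) (2 * i + 1),
    (List.range' (i + 1) (m - (i + 1))).map (X (1 / m)), by linarith, by linarith, ?_, ?_⟩
  · rw [L, show m - i = m - (i + 1) + 1 by omega, List.range'_succ, List.map_cons]
    congr 2
    unfold X
    push_cast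
    ring
  · simp [L, mul_add, List.range_succ]

theorem result : ∃ S, IsStrategy S ∧
    ∀ C : ℝ, ∃ n ≥ 1, discN S n < 2 - 3 / (2 * (n : ℝ)) - C / (n : ℝ) ^ 2 := by
  refine ⟨fun t => L (2 ^ Nat.log 2 t) (t - 2 ^ Nat.log 2 t), ⟨by simp [L, X]; norm_num,
    fun t ht => ?_⟩, fun C => ?_⟩
  · have h1 := Nat.pow_log_le_self 2 (show t ≠ 0 by omega)
    have h2 := Nat.lt_pow_succ_log_self one_lt_two t
    rw [pow_succ] at h2
    obtain ⟨l, a, b, r, h3, h4, h5, h6⟩ := step (2 ^ Nat.log 2 t) (t - 2 ^ Nat.log 2 t) (by omega)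
    refine ⟨l, a, b, r, h3, h4, h5, Eq.trans ?_ h6⟩
    by_cases h : t + 1 < 2 ^ Nat.log 2 t * 2
    · simp only [Nat.log_eq_of_pow_le_of_lt_pow (b := 2) (n := t + 1) (m := Nat.log 2 t) (by omega)
        (by rwa [pow_succ])]
      congr 1
      omega
    · have e : t + 1 = 2 ^ (Nat.log 2 t + 1) := by rw [pow_succ]; omega
      rw [show t - 2 ^ Nat.log 2 t + 1 = 2 ^ Nat.log 2 t by omega]
      simp only [e, Nat.log_pow one_lt_two]
      simp [L, List.range_eq_range', pow_succ', div_eq_mul_inv, mul_comm]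
  · obtain ⟨j, hj⟩ := exists_nat_ge (40 * |C| + 40)
    have h1 : j + 1 ≤ 2 ^ j := Nat.lt_two_pow_self
    obtain ⟨n, hn⟩ : ∃ n, n + 1 = 2 * 2 ^ j := ⟨2 * 2 ^ j - 1, by omega⟩
    have h2 : (j : ℝ) + 1 ≤ (2 ^ j : ℕ) := by exact_mod_cast h1
    have h3 : (n : ℝ) + 1 = 2 * (2 ^ j : ℕ) := by exact_mod_cast hn
    have h4 := abs_nonneg C
    have h5 := le_abs_self C
    have h6 : 1 / ((2 ^ j : ℕ) : ℝ) ≤ 1 / 20 := one_div_le_one_div_of_le (by norm_num) (by linarith)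
    refine ⟨n, by omega, lt_of_le_of_lt (Real.sSup_le (a := 2 - 4 / 5 * (1 / ((2 ^ j : ℕ) : ℝ))) ?_
      (by linarith)) ?_⟩
    · rintro _ ⟨t, t1, t2, a, ha, b, hb, rfl⟩
      have l1 := Nat.pow_log_le_self 2 (show t ≠ 0 by omega)
      have l2 := Nat.lt_pow_succ_log_self one_lt_two t
      rw [pow_succ] at l2
      have l3 : 2 ^ Nat.log 2 t ≤ 2 ^ j := Nat.pow_le_pow_right (by norm_num)
        (Nat.lt_succ_iff.1 (Nat.log_lt_of_lt_pow (by omega) (by rw [pow_succ]; omega)))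
      have := one_div_le_one_div_of_le (Nat.cast_pos.2 (by positivity)) ((Nat.cast_le (α := ℝ)).2 l3)
      exact rat _ _ (by omega) _ (by linarith) (by linarith) a ha b hb
    · rw [show ((2 ^ j : ℕ) : ℝ) = (n + 1) / 2 by linarith]
      have h7 : 80 * |C| + 80 ≤ n := by linarith
      have n0 : (0 : ℝ) < n := by linarith
      have : 3 / (2 * (n : ℝ)) + C / n ^ 2 < 4 / 5 * (1 / ((n + 1) / 2)) := by
        field_simp
        nlinarith [mul_le_mul_of_nonneg_left h7 n0.le, mul_le_mul_of_nonneg_left h5 n0.le]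
      linarith

end Pool.Agent.Results.MP_32269d_co.Cex
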